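import Mathlib

set_option autoImplicit false

open Polynomial

namespace Pool.Agent.MP_1c8e06_ag.AK

noncomputable section

/-! ### Groups acting on fields -/

/-- `ψ : K → M` identifies `K` with the field of invariants of the group `R` acting on `M`, and `Z` is the
kernel of the action. -/
structure IsG {K M : Type} [Field K] [Field M] (ψ : K →+* M) (R : Type) [Group R]
    [MulSemiringAction R M] (Z : Subgroup R) : Prop where
  ker : ∀ r : R, (∀ a : M, r • a = a) ↔ r ∈ Z
  fix : ∀ a : M, (∀ r : R, r • a = a) ↔ ∃ x : K, ψ x = a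

theorem IsG.smul_ψ {K M : Type} [Field K] [Field M] {ψ : K →+* M} {R : Type} [Group R]
    [MulSemiringAction R M] {Z : Subgroup R} (h : IsG ψ R Z) (r : R) (x : K) : r • ψ x = ψ x :=
  (h.fix (ψ x)).2 ⟨x, rfl⟩ r

/-- The field of invariants of the subgroup `H`. -/
def Fx {M R : Type} [Field M] [Group R] [MulSemiringAction R M] (H : Subgroup R) : Subfield M where
  carrier := {a | ∀ h ∈ H, h • a = a}
  mul_mem' := by
    intro a b ha hb h hh
    rw [smul_mul', ha h hh, hb h hh]
  one_mem' := fun h _ => smul_one h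
  add_mem' := by
    intro a b ha hb h hh
    rw [smul_add, ha h hh, hb h hh]
  zero_mem' := fun h _ => smul_zero h
  neg_mem' := by
    intro a ha h hh
    rw [smul_neg, ha h hh]
  inv_mem' := by
    intro a ha h hh
    rw [smul_inv'', ha h hh]

theorem mem_Fx {M R : Type} [Field M] [Group R] [MulSemiringAction R M] {H : Subgroup R} {a : M} :
    a ∈ Fx H ↔ ∀ h ∈ H, h • a = a := Iff.rfl

/-! ### Homomorphisms from the field of rational functions -/

section
variable {k : Type} [Field k]

/-- Homomorphisms of `RatFunc k` are determined by their values on constants and on `X`. -/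
theorem ratHom_ext {T : Type} [Semiring T] {f g : RatFunc k →+* T}
    (h1 : ∀ c : k, f (RatFunc.C c) = g (RatFunc.C c)) (h2 : f RatFunc.X = g RatFunc.X) : f = g := by
  refine IsLocalization.ringHom_ext (nonZeroDivisors k[X]) (Polynomial.ringHom_ext ?_ ?_)
  · intro c
    simp only [RingHom.comp_apply, RatFunc.algebraMap_C]
    exact h1 c
  · simp only [RingHom.comp_apply, RatFunc.algebraMap_X]
    exact h2

/-- The homomorphism with `X ↦ θ` and `κ` on constants. -/
def ratLift {T : Type} [Field T] (κ : k →+* T) (θ : T)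
    (h : Function.Injective (Polynomial.eval₂RingHom κ θ)) : RatFunc k →+* T :=
  IsFractionRing.lift h

theorem ratLift_alg {T : Type} [Field T] (κ : k →+* T) (θ : T)
    (h : Function.Injective (Polynomial.eval₂RingHom κ θ)) (f : k[X]) :
    ratLift κ θ h (algebraMap k[X] (RatFunc k) f) = f.eval₂ κ θ :=
  IsFractionRing.lift_algebraMap h f

theorem ratLift_C {T : Type} [Field T] (κ : k →+* T) (θ : T)
    (h : Function.Injective (Polynomial.eval₂RingHom κ θ)) (c : k) :
    ratLift κ θ h (RatFunc.C c) = κ c := by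
  rw [← RatFunc.algebraMap_C, ratLift_alg, eval₂_C]

theorem ratLift_X {T : Type} [Field T] (κ : k →+* T) (θ : T)
    (h : Function.Injective (Polynomial.eval₂RingHom κ θ)) :
    ratLift κ θ h RatFunc.X = θ := by
  rw [← RatFunc.algebraMap_X, ratLift_alg, eval₂_X]

/-! ### Substitutions in rational functions -/

theorem compR_inj (q : k[X]) (hq : 0 < q.natDegree) :
    Function.Injective (Polynomial.eval₂RingHom (RatFunc.C : k →+* RatFunc k)
      (algebraMap k[X] (RatFunc k) q)) := by
  have h1 : Polynomial.eval₂RingHom (RatFunc.C : k →+* RatFunc k) (algebraMap k[X] (RatFunc k) q) =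
      (algebraMap k[X] (RatFunc k)).comp (Polynomial.compRingHom q) := by
    refine Polynomial.ringHom_ext (fun c => ?_) ?_
    · simp
    · simp
  rw [h1, RingHom.coe_comp]
  refine (RatFunc.algebraMap_injective k).comp ?_
  rw [injective_iff_map_eq_zero]
  intro f hf
  have h2 : f.comp q = 0 := hf
  rcases Polynomial.comp_eq_zero_iff.1 h2 with h | ⟨_, h⟩
  · exact h
  · rw [h, natDegree_C] at hq
    exact absurd hq (lt_irrefl 0)

/-- `f(X) ↦ f(q(X))` on rational functions, for a nonconstant polynomial `q`. -/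
def compR (q : k[X]) (hq : 0 < q.natDegree) : RatFunc k →+* RatFunc k :=
  ratLift RatFunc.C (algebraMap k[X] (RatFunc k) q) (compR_inj q hq)

theorem compR_C (q : k[X]) (hq : 0 < q.natDegree) (c : k) :
    compR q hq (RatFunc.C c) = RatFunc.C c := ratLift_C _ _ _ c

theorem compR_X (q : k[X]) (hq : 0 < q.natDegree) :
    compR q hq RatFunc.X = algebraMap k[X] (RatFunc k) q := ratLift_X _ _ _

theorem natDegree_sig : 0 < (X + C 1 : k[X]).natDegree := by
  rw [natDegree_X_add_C]
  exact one_pos

/-- `X ↦ X + 1`. -/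
def sig (k : Type) [Field k] : RatFunc k →+* RatFunc k := compR (X + C 1) natDegree_sig

theorem sig_C (c : k) : sig k (RatFunc.C c) = RatFunc.C c := compR_C _ _ c

theorem sig_X : sig k RatFunc.X = RatFunc.X + 1 := by
  rw [sig, compR_X, map_add, RatFunc.algebraMap_X, RatFunc.algebraMap_C, map_one]

/-! ### Laurent series -/

/-- `t`. -/
def tt (k : Type) [Field k] : LaurentSeries k := HahnSeries.single (1 : ℤ) (1 : k)

theorem psiP_inj (b : k) : Function.Injective (Polynomial.eval₂RingHom
    (HahnSeries.C : k →+* LaurentSeries k) (HahnSeries.C b + tt k)) := by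
  have h1 : Polynomial.eval₂RingHom (HahnSeries.C : k →+* LaurentSeries k) (HahnSeries.C b + tt k) =
      ((HahnSeries.ofPowerSeries ℤ k).comp (Polynomial.coeToPowerSeries.ringHom)).comp
        (Polynomial.compRingHom (X + C b)) := by
    refine Polynomial.ringHom_ext (fun c => ?_) ?_
    · simp
    · simp [tt, add_comm]
  rw [h1, RingHom.coe_comp, RingHom.coe_comp]
  refine (HahnSeries.ofPowerSeries_injective.comp (Polynomial.coe_injective k)).comp ?_
  rw [injective_iff_map_eq_zero]
  intro f hf
  have h2 : f.comp (X + C b) = 0 := hf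
  rcases Polynomial.comp_eq_zero_iff.1 h2 with h | ⟨_, h⟩
  · exact h
  · have h3 := congrArg natDegree h
    rw [natDegree_X_add_C, natDegree_C] at h3
    exact absurd h3 one_ne_zero

/-- Expansion at the point `b` of the affine line: `X ↦ b + t`. -/
def psi (b : k) : RatFunc k →+* LaurentSeries k := ratLift HahnSeries.C (HahnSeries.C b + tt k) (psiP_inj b)

theorem psi_C (b c : k) : psi b (RatFunc.C c) = HahnSeries.C c := ratLift_C _ _ _ c

theorem psi_X (b : k) : psi b RatFunc.X = HahnSeries.C b + tt k := ratLift_X _ _ _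

theorem psi_alg (b : k) (f : k[X]) : psi b (algebraMap k[X] (RatFunc k) f) =
    f.eval₂ HahnSeries.C (HahnSeries.C b + tt k) := ratLift_alg _ _ _ f

end

section
variable {k : Type} [Field k]

/-- Multiplication by `m > 0` on `ℤ`. -/
private theorem mulm_inj {m : ℕ} (hm : 0 < m) :
    Function.Injective (AddMonoidHom.mulLeft (m : ℤ)) := by
  intro a b h
  have h1 : (m : ℤ) * a = (m : ℤ) * b := h
  exact mul_left_cancel₀ (by exact_mod_cast hm.ne') h1

open Classical in
/-- `f(t) ↦ f(t^m)` (for `m > 0`). -/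
def phi (k : Type) [Field k] (m : ℕ) : LaurentSeries k →+* LaurentSeries k :=
  if hm : 0 < m then
    HahnSeries.embDomainRingHom (AddMonoidHom.mulLeft (m : ℤ)) (mulm_inj hm) (by
      intro a b
      have h : (0 : ℤ) < m := by exact_mod_cast hm
      exact mul_le_mul_iff_of_pos_left h)
  else RingHom.id _

theorem phi_coeff_mul {m : ℕ} (hm : 0 < m) (f : LaurentSeries k) (n : ℤ) :
    (phi k m f).coeff ((m : ℤ) * n) = f.coeff n := by
  rw [phi, dif_pos hm]
  exact HahnSeries.embDomain_coeff (f := ⟨⟨AddMonoidHom.mulLeft (m : ℤ), mulm_inj hm⟩, _⟩)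

theorem phi_coeff_of_not_dvd {m : ℕ} (hm : 0 < m) (f : LaurentSeries k) {n : ℤ}
    (hn : ¬ (m : ℤ) ∣ n) : (phi k m f).coeff n = 0 := by
  rw [phi, dif_pos hm]
  refine HahnSeries.embDomain_of_notMem_range (f := ⟨⟨AddMonoidHom.mulLeft (m : ℤ), mulm_inj hm⟩, _⟩) ?_
  rintro ⟨a, ha⟩
  exact hn ⟨a, ha.symm⟩

theorem phi_coeff {m : ℕ} (hm : 0 < m) (f : LaurentSeries k) (n : ℤ) :
    (phi k m f).coeff n = if (m : ℤ) ∣ n then f.coeff (n / m) else 0 := by
  split_ifs with h
  · obtain ⟨a, rfl⟩ := h
    have h0 : (m : ℤ) ≠ 0 := by exact_mod_cast hm.ne'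
    rw [phi_coeff_mul hm, Int.mul_ediv_cancel_left _ h0]
  · exact phi_coeff_of_not_dvd hm f h

/-- `f(t) ↦ f(ζ t)`. -/
def rot (ζ : kˣ) : LaurentSeries k →+* LaurentSeries k where
  toFun f := ⟨fun n => ((ζ ^ n : kˣ) : k) * f.coeff n, f.isPWO_support.mono (by
    intro n hn h
    exact hn (by simp [h]))⟩
  map_one' := by
    ext n
    simp only [HahnSeries.coeff_one]
    split_ifs with h
    · subst h
      simp
    · simp
  map_zero' := by
    ext n
    simp
  map_add' f g := by
    ext n
    simp [mul_add]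
  map_mul' f g := by
    ext n
    rw [HahnSeries.coeff_mul]
    change ((ζ ^ n : kˣ) : k) * (f * g).coeff n = _
    rw [HahnSeries.coeff_mul, Finset.mul_sum]
    refine Finset.sum_congr ?_ ?_
    · ext x
      simp only [Finset.mem_antidiagonal, HahnSeries.mem_support, ne_eq, Units.mul_right_eq_zero]
    · intro x hx
      have h1 : x.1 + x.2 = n := (Finset.mem_antidiagonal.1 hx).2.2
      rw [← h1, zpow_add, Units.val_mul]
      ring

theorem rot_coeff (ζ : kˣ) (f : LaurentSeries k) (n : ℤ) :
    (rot ζ f).coeff n = ((ζ ^ n : kˣ) : k) * f.coeff n := rfl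

theorem rot_C (ζ : kˣ) (c : k) : rot ζ (HahnSeries.C c) = HahnSeries.C c := by
  ext n
  rw [rot_coeff, HahnSeries.C_apply, HahnSeries.coeff_single]
  split_ifs with h
  · rw [h, zpow_zero, Units.val_one, one_mul]
  · rw [mul_zero]

theorem rot_single (ζ : kˣ) (n : ℤ) (c : k) :
    rot ζ (HahnSeries.single n c) = HahnSeries.single n (((ζ ^ n : kˣ) : k) * c) := by
  ext i
  rw [rot_coeff, HahnSeries.coeff_single, HahnSeries.coeff_single]
  split_ifs with h
  · rw [h]
  · rw [mul_zero]

theorem phi_single {m : ℕ} (hm : 0 < m) (n : ℤ) (c : k) :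
    phi k m (HahnSeries.single n c) = HahnSeries.single ((m : ℤ) * n) c := by
  have h0 : (m : ℤ) ≠ 0 := by exact_mod_cast hm.ne'
  ext i
  rw [phi_coeff hm, HahnSeries.coeff_single, HahnSeries.coeff_single]
  split_ifs with h1 h2 h3 h4 h5
  · rfl
  · exact absurd (by rw [← h2, Int.mul_ediv_cancel' h1]) h3
  · exact absurd (by rw [h4, Int.mul_ediv_cancel_left _ h0]) h2
  · rfl
  · exact absurd ⟨n, h5⟩ h1
  · rfl

theorem phi_C {m : ℕ} (hm : 0 < m) (c : k) : phi k m (HahnSeries.C c) = HahnSeries.C c := by
  rw [HahnSeries.C_apply, phi_single hm, mul_zero]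

theorem phi_tt {m : ℕ} (hm : 0 < m) : phi k m (tt k) = tt k ^ m := by
  rw [tt, phi_single hm, HahnSeries.single_pow, one_pow, mul_one, nsmul_eq_mul, mul_one]

theorem order_phi {m : ℕ} (hm : 0 < m) (f : LaurentSeries k) :
    (phi k m f).order = (m : ℤ) * f.order := by
  by_cases hf : f = 0
  · rw [hf, map_zero, HahnSeries.order_zero, mul_zero]
  · apply le_antisymm
    · apply HahnSeries.order_le_of_coeff_ne_zero
      rw [phi_coeff_mul hm]
      exact (HahnSeries.coeff_order_eq_zero.not.2 hf)
    · have hne : phi k m f ≠ 0 := (_root_.map_ne_zero _).2 hf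
      by_contra hlt
      rw [not_le] at hlt
      have h1 := (HahnSeries.coeff_order_eq_zero.not.2 hne)
      by_cases hd : (m : ℤ) ∣ (phi k m f).order
      · obtain ⟨a, ha⟩ := hd
        rw [ha, phi_coeff_mul hm] at h1
        have h2 := HahnSeries.order_le_of_coeff_ne_zero h1
        have h3 : (m : ℤ) * f.order ≤ (m : ℤ) * a :=
          mul_le_mul_of_nonneg_left h2 (Int.natCast_nonneg m)
        rw [ha] at hlt
        exact absurd hlt (not_lt.2 h3)
      · exact h1 (phi_coeff_of_not_dvd hm f hd)

theorem order_mul_L {f g : LaurentSeries k} (hf : f ≠ 0) (hg : g ≠ 0) :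
    (f * g).order = f.order + g.order := HahnSeries.order_mul hf hg

theorem order_pow_L (f : LaurentSeries k) (n : ℕ) : (f ^ n).order = (n : ℤ) * f.order := by
  rw [HahnSeries.order_pow, nsmul_eq_mul]

end

/-! ### Goodness, realisability, the relatively free group -/

/-- `M` is unramified over all points of the affine line outside `S`. -/
def GoodS {k M : Type} [Field k] [Field M] (S : Set k) (ψ : RatFunc k →+* M) : Prop :=
  ∀ b : k, b ∉ S → ∃ ε : M →+* LaurentSeries k, ε.comp ψ = psi b

/-- The points of the affine line over the prime field. -/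
def Fp (p : ℕ) (k : Type) [Field k] : Set k := {b | b ^ p = b}

/-- There is a Galois extension of `k(y)` with group `R`, unramified over the points outside `S`. -/
def Real (k : Type) [Field k] (S : Set k) (R : Type) [Group R] : Prop :=
  ∃ (M : Type) (_ : Field M) (_ : MulSemiringAction R M) (ψ : RatFunc k →+* M),
    IsG ψ R (⊥ : Subgroup R) ∧ GoodS S ψ

/-- The relatively free group on `n` generators of the variety generated by `R`: the group of functions
`R ^ n → R` generated by the coordinates. -/
def RF (R : Type) [Group R] (n : ℕ) : Subgroup ((Fin n → R) → R) :=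
  Subgroup.closure (Set.range fun (j : Fin n) (f : Fin n → R) => f j)

/-- The generators of `RF R n`. -/
def RF.gen (R : Type) [Group R] (n : ℕ) (j : Fin n) : RF R n :=
  ⟨fun f => f j, Subgroup.subset_closure ⟨j, rfl⟩⟩

end

end Pool.Agent.MP_1c8e06_ag.AK
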