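import Pool.Agent.Lib.MP_1c8e06_ag.AK.Defs

set_option autoImplicit false

open Polynomial

namespace Pool.Agent.MP_1c8e06_ag.AK

noncomputable section

/-- The `k[X]`-algebra structure of `N` through `ψ : RatFunc k → N`. -/
abbrev algP {k N : Type} [Field k] [Field N] (ψ : RatFunc k →+* N) : Algebra k[X] N :=
  (ψ.comp (algebraMap k[X] (RatFunc k))).toAlgebra

/-- The integral closure of `k[X]` in `N`. -/
def OO {k N : Type} [Field k] [Field N] (ψ : RatFunc k →+* N) : Subring N :=
  letI := algP ψ
  (integralClosure k[X] N).toSubring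

theorem mem_OO {k N : Type} [Field k] [Field N] {ψ : RatFunc k →+* N} {a : N} :
    a ∈ OO ψ ↔ (ψ.comp (algebraMap k[X] (RatFunc k))).IsIntegralElem a := Iff.rfl

theorem OO_alg {k N : Type} [Field k] [Field N] (ψ : RatFunc k →+* N) (f : k[X]) :
    ψ (algebraMap k[X] (RatFunc k) f) ∈ OO ψ :=
  (ψ.comp (algebraMap k[X] (RatFunc k))).isIntegralElem_map

/-- `N` is unramified over all points of the affine line: for every `a` there is an embedding into `k((t))` over `k` with
`X ↦ a + (a series of order 1)`. -/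
def Unr {k N : Type} [Field k] [Field N] (ψ : RatFunc k →+* N) : Prop :=
  ∀ a : k, ∃ ε : N →+* LaurentSeries k, (∀ c : k, ε (ψ (RatFunc.C c)) = HahnSeries.C c) ∧
    (ε (ψ RatFunc.X) - HahnSeries.C a).order = 1

end

end Pool.Agent.MP_1c8e06_ag.AK
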