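import Pool.Agent.Lib.MP_1c8e06_ag.AJ.Defs7

set_option autoImplicit false

open Polynomial
open scoped Classical

namespace Pool.Agent.MP_1c8e06_ag.AK

open Pool.Agent.MP_1c8e06_ag.AJ

noncomputable section

/-- A finite group is `p`-solvable: it has a chain of normal subgroups such that the successive
quotients are `p`-groups or have order prime to `p`. -/
def PSolvable (p : ℕ) (G : Type) [Group G] : Prop :=
  ∃ (n : ℕ) (H : ℕ → Subgroup G), H 0 = ⊥ ∧ H n = ⊤ ∧ (∀ i, (H i).Normal) ∧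
    (∀ i, H i ≤ H (i + 1)) ∧
    ∀ i, i < n → (∃ m : ℕ, (H i).relIndex (H (i + 1)) = p ^ m) ∨
      ¬ p ∣ (H i).relIndex (H (i + 1))

/-- The base case: `G = R ⟨g⟩` with an `l`-group `R` generated by the `⟨g⟩`-conjugates of one
element `r`. -/
def BaseL (p : ℕ) (k : Type) [Field k] : Prop :=
  ∀ (P G : Type) [Group P] [Fintype P] [Group G] [Fintype G] (u₀ : P) (i : P →* G) (l : ℕ)
    (R : Subgroup G) (r : G), orderOf u₀ = p → (∀ u : P, ∃ n : ℕ, u = u₀ ^ n) →
    Function.Injective i → l.Prime → l ≠ p → R.Normal → IsPGroup l R →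
    R ⊔ Subgroup.zpowers (i u₀) = ⊤ →
    R = Subgroup.closure {x | ∃ j : ℕ, x = i u₀ ^ j * r * (i u₀ ^ j)⁻¹} →
    Subgroup.normalClosure (i.range : Set G) = ⊤ → RE p k i ⊤

end

end Pool.Agent.MP_1c8e06_ag.AK
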