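import Pool.Agent.Lib.MP_1c8e06_ag.Mg.G014
import Pool.Agent.Lib.MP_1c8e06_ag.Mg.G020

set_option autoImplicit false

open Polynomial
open scoped Classical

namespace Pool.Agent.MP_1c8e06_ag.AK

open Pool.Agent.MP_1c8e06_ag.AJ

noncomputable section

/-!
# Task AK G5: `G = R I`

Situation of a minimal counterexample: `H₀` the largest subgroup reached, `H₀ ≠ ⊤`; conclusion `R ⊔ i.range = ⊤`.
Proof.  Suppose `R ⊔ zpowers g ≠ ⊤`.  By `coprime_H0` all elements of `R` normalise `H₀` (`R` is normal, so normalised by `g`).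
`exists_supplement`: `Y` (`R ≠ ⊤`: `p` divides `|G|`, as `orderOf g = p`).  `exists_snc` (`AJ/G2.lean`) for `i.range` and `Y`: `A`, `SN A Y`,
`clS i.range A = A`, `i.range ≤ A ≤ Y`, so `A ≠ ⊤`, `A ≤ H₀` (`sub_H0`).  `SN_supN`: `SN (A ⊔ R) (Y ⊔ R)`, `Y ⊔ R = ⊤`; `SN_top`:
`A ⊔ R = ⊤`.  The elements `x` with `BT.cj x H₀ = H₀` form a subgroup (`BT.S3_nz`) containing `A` (`BT.cj_eq_self`) and `R`, so
`H₀` is normal; it contains `i.range` (`re_range` and `hmax`), so `H₀ = ⊤` by `hgen`, contradiction.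
-/

theorem step_R {p : ℕ} [hp : Fact p.Prime] {k : Type} [Field k] [IsAlgClosed k] [CharP k p]
    (CC : Cls) {P G : Type} [Group P] [Fintype P] [Group G] [Fintype G] (u₀ : P)
    (hu : orderOf u₀ = p) (hgen₀ : ∀ u : P, ∃ n : ℕ, u = u₀ ^ n) (i : P →* G) (hG : CC.mem G)
    (hsol : PSolvable p G) (hind : Ind p k CC (Nat.card G)) (hP : IsPGroup p P)
    (hi : Function.Injective i) (hgen : Subgroup.normalClosure (i.range : Set G) = ⊤)
    (H₀ : Subgroup G) (h0 : RE p k i H₀) (hmax : ∀ H, RE p k i H → H ≤ H₀) (hne : H₀ ≠ ⊤)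
    (hOp : ∀ N : Subgroup G, N.Normal → IsPGroup p N → N = ⊥) (R : Subgroup G)
    (hRn : R.Normal) (hR : ¬ p ∣ Nat.card R)
    (hRmax : ∀ N : Subgroup G, N.Normal → ¬ p ∣ Nat.card N → N ≤ R) :
    R ⊔ Subgroup.zpowers (i u₀) = ⊤ := by
  by_contra hne'
  have hRH : ∀ q ∈ R, BT.cj q H₀ = H₀ := fun q hq =>
    coprime_H0 CC u₀ hu hgen₀ i hG hind hP hi H₀ h0 hmax R hR
      (fun q' hq' => hRn.conj_mem q' hq' (i u₀)) hne' q hq
  have hRt : R ≠ ⊤ := by
    intro h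
    apply hne'
    rw [h, top_sup_eq]
  have hIp : IsPGroup p i.range := hP.of_surjective i.rangeRestrict i.rangeRestrict_surjective
  obtain ⟨Y, hIY, hYt, hYR⟩ := exists_supplement hsol hOp R hRn hR hRmax hRt i.range hIp
  obtain ⟨A, hSA, hAY, hclA⟩ := exists_snc i.range Y hIY
  have hAt : A ≠ ⊤ := by
    intro h
    apply hYt
    rw [← top_le_iff, ← h]
    exact hAY.le
  have hAH : A ≤ H₀ := sub_H0 CC i hG hind hP hi H₀ hmax A hAt hSA hclA
  have h1 : BT.SN (A ⊔ R) (Y ⊔ R) := SN_supN hAY hRn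
  rw [hYR] at h1
  have h2 : A ⊔ R = ⊤ := SN_top h1 (hSA.trans le_sup_left) hgen
  have h3 : (⊤ : Subgroup G) ≤ BT.S3_nz H₀ := by
    rw [← h2]
    refine sup_le ?_ ?_
    · intro a ha
      rw [BT.S3_mem_nz]
      exact BT.cj_eq_self (hAH ha)
    · intro a ha
      rw [BT.S3_mem_nz]
      exact hRH a ha
  have h4 : H₀.Normal := by
    refine ⟨fun x hx g => ?_⟩
    have h5 : BT.cj g H₀ = H₀ := BT.S3_mem_nz.1 (h3 (Subgroup.mem_top g))
    have h6 : g * x * g⁻¹ ∈ BT.cj g H₀ := BT.conj_mem_cj.2 hx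
    rwa [h5] at h6
  have h5 : i.range ≤ H₀ := hmax _ (re_range hP i hi)
  apply hne
  rw [← top_le_iff, ← hgen]
  exact Subgroup.normalClosure_le_normal h5

end

end Pool.Agent.MP_1c8e06_ag.AK
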