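import Pool.Agent.Lib.MP_1c8e06_ag.Mg.G014

set_option autoImplicit false

open Polynomial
open scoped Classical

namespace Pool.Agent.MP_1c8e06_ag.AK

open Pool.Agent.MP_1c8e06_ag.AJ

noncomputable section

/-!
# Task AK G6: the structure of a minimal counterexample `G = R I`

Proof.  For a prime `l` dividing `|R|` (so `l ≠ p`) there is a Sylow `l`-subgroup `R_l` of `R` normalised by `g`: `zpowers g` acts by
conjugation on the set of Sylow `l`-subgroups of the normal subgroup `R`, whose number divides `|R|` (`Sylow.card_dvd_index`), hence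
is prime to `p`; the `p`-group `zpowers g` has a fixed point (`IsPGroup.card_modEq_card_fixedPoints`); see `AJ/G1.lean`, `exists_sylow`,
for the action.
If `R_l ⊔ zpowers g ≠ ⊤` for all `l` then all `R_l` normalise `H₀` (`coprime_H0`); they generate `R` (the order of the subgroup they
generate is divisible by the full `l`-part of `|R|` for every `l`), so `R` and `g ∈ H₀` normalise `H₀`, `H₀` is normal (`R ⊔ zpowers g = ⊤`)
and contains `i.range`, so `H₀ = ⊤` by `hgen`: contradiction.  So `R_l ⊔ zpowers g = ⊤` for some `l`; then `R_l = R`: `|R_l| p = |G| = |R| p`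
(both are normalised by `g` and have trivial intersection with it).  So `R` is an `l`-group.  (If `R = ⊥` then `G = zpowers g = i.range ≤ H₀`,
contradiction, so there is a prime `l ∣ |R|`.)
For `r ∈ R` let `D_r := closure {g^j r g^(-j)} ≤ R`, normalised by `g`.  If `D_r ⊔ zpowers g ≠ ⊤` for all `r ∈ R` then every `r ∈ R`
normalises `H₀`: contradiction as before.  So `D_r ⊔ zpowers g = ⊤` for an `r`, and `D_r = R` by cardinality.
-/

private theorem G6_smul {l : ℕ} {G : Type} [Group G]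
    (N : Subgroup G) [N.Normal] (Q : Sylow l N) (g : G) :
    (((MulAut.conjNormal g : MulAut N) • Q : Sylow l N) : Subgroup N).map N.subtype =
      BT.cj g ((Q : Subgroup N).map N.subtype) := by
  ext x
  rw [BT.mem_cj, Subgroup.mem_map, Subgroup.mem_map]
  constructor
  · rintro ⟨y, hy, rfl⟩
    rw [Sylow.pointwise_smul_def, Subgroup.mem_pointwise_smul_iff_inv_smul_mem] at hy
    refine ⟨(MulAut.conjNormal g : MulAut N)⁻¹ • y, hy, ?_⟩
    have h1 : y = MulAut.conjNormal g ((MulAut.conjNormal g : MulAut N)⁻¹ • y) := by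
      change y = (MulAut.conjNormal g : MulAut N) • ((MulAut.conjNormal g : MulAut N)⁻¹ • y)
      rw [smul_inv_smul]
    have h2 : (y : G) = g * ((((MulAut.conjNormal g : MulAut N)⁻¹ • y : N)) : G) * g⁻¹ := by
      conv_lhs => rw [h1]
      rw [MulAut.conjNormal_apply]
    change (((MulAut.conjNormal g : MulAut N)⁻¹ • y : N) : G) = g⁻¹ * (y : G) * g
    rw [h2]
    group
  · rintro ⟨y, hy, h⟩
    refine ⟨(MulAut.conjNormal g : MulAut N) • y, ?_, ?_⟩
    · rw [Sylow.pointwise_smul_def]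
      exact Subgroup.smul_mem_pointwise_smul y _ _ hy
    · change ((MulAut.conjNormal g y : N) : G) = x
      rw [MulAut.conjNormal_apply]
      have h' : (y : G) = g⁻¹ * x * g := h
      rw [h']
      group

private theorem G6_sylow {p l : ℕ} [hp : Fact p.Prime] [hl : Fact l.Prime] {G : Type} [Group G]
    [Finite G] (R : Subgroup G) (hRn : R.Normal) (hR : ¬ p ∣ Nat.card R) (g : G)
    (hg : IsPGroup p (Subgroup.zpowers g)) :
    ∃ T : Subgroup G, T ≤ R ∧ IsPGroup l T ∧ BT.cj g T = T ∧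
      Nat.card T = l ^ (Nat.card R).factorization l := by
  have := hRn
  have hfS : Finite (Sylow l R) := inferInstance
  let act : MulAction (Subgroup.zpowers g) (Sylow l R) :=
    MulAction.compHom (Sylow l R)
      ((MulAut.conjNormal : G →* MulAut R).comp (Subgroup.zpowers g).subtype)
  have hmod := hg.card_modEq_card_fixedPoints (Sylow l R)
  have hne : Nat.card (MulAction.fixedPoints (Subgroup.zpowers g) (Sylow l R)) ≠ 0 := by
    intro h0
    rw [h0] at hmod
    have h2 : p ∣ Nat.card (Sylow l R) := (Nat.modEq_zero_iff_dvd).1 hmod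
    obtain ⟨Q₀⟩ : Nonempty (Sylow l R) := inferInstance
    exact hR (h2.trans ((Sylow.card_dvd_index Q₀).trans (Subgroup.index_dvd_card _)))
  obtain ⟨⟨Q, hQ⟩⟩ := (Nat.card_ne_zero.1 hne).1
  refine ⟨(Q : Subgroup R).map R.subtype, ?_, ?_, ?_, ?_⟩
  · rintro _ ⟨y, _, rfl⟩
    exact y.2
  · exact Q.isPGroup'.map R.subtype
  · rw [← G6_smul]
    have h1 : (⟨g, Subgroup.mem_zpowers g⟩ : Subgroup.zpowers g) • Q = Q :=
      hQ ⟨g, Subgroup.mem_zpowers g⟩
    have h2 : ((MulAut.conjNormal g : MulAut R) • Q : Sylow l R) = Q := h1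
    rw [h2]
  · rw [Subgroup.card_map_of_injective R.subtype_injective]
    exact Q.card_eq_multiplicity

/-- A subgroup of `R` containing subgroups of all the orders `l ^ v_l(|R|)` is `R`. -/
private theorem G6_gen {G : Type} [Group G] [Finite G] (R K : Subgroup G) (hK : K ≤ R)
    (h : ∀ l : ℕ, l.Prime → l ∣ Nat.card R → ∃ T : Subgroup G, T ≤ K ∧
      Nat.card T = l ^ (Nat.card R).factorization l) : K = R := by
  apply Subgroup.eq_of_le_of_card_ge hK
  apply Nat.le_of_dvd Nat.card_pos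
  rw [← Nat.factorization_prime_le_iff_dvd Nat.card_pos.ne' Nat.card_pos.ne']
  intro l hl
  by_cases hd : l ∣ Nat.card R
  · obtain ⟨T, hTK, hT⟩ := h l hl hd
    have h1 : Nat.card T ∣ Nat.card K := Subgroup.card_dvd_of_le hTK
    rw [hT] at h1
    exact (hl.pow_dvd_iff_le_factorization Nat.card_pos.ne').1 h1
  · rw [Nat.factorization_eq_zero_of_not_dvd hd]
    exact Nat.zero_le _

private theorem G6_eq {p : ℕ} [hp : Fact p.Prime] {G : Type} [Group G] [Finite G] (g : G)
    (hg : IsPGroup p (Subgroup.zpowers g)) (R Q : Subgroup G) (hR : ¬ p ∣ Nat.card R)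
    (hQR : Q ≤ R) (hQg : BT.cj g Q = Q) (hQ : Q ⊔ Subgroup.zpowers g = ⊤) : Q = R := by
  have hnz : ∀ x : G, BT.cj x Q = Q := by
    have h1 : (⊤ : Subgroup G) ≤ BT.S3_nz Q := by
      rw [← hQ]
      refine sup_le (fun x hx => BT.S3_mem_nz.2 (BT.cj_eq_self hx)) ?_
      rw [Subgroup.zpowers_le]
      exact BT.S3_mem_nz.2 hQg
    exact fun x => BT.S3_mem_nz.1 (h1 (Subgroup.mem_top x))
  have hQn : Q.Normal := by
    refine ⟨fun x hx y => ?_⟩
    rw [← hnz y]
    exact BT.conj_mem_cj.2 hx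
  refine le_antisymm hQR ?_
  intro x hx
  have h1 : x ∈ Q ⊔ Subgroup.zpowers g := by
    rw [hQ]
    exact Subgroup.mem_top x
  obtain ⟨y, hy, z, hz, hyz⟩ := Subgroup.mem_sup_of_normal_left.1 h1
  have h2 : z ∈ R := by
    have h3 : z = y⁻¹ * x := by
      rw [← hyz]
      group
    rw [h3]
    exact R.mul_mem (R.inv_mem (hQR hy)) hx
  have h4 : z = 1 := by
    obtain ⟨j, hj⟩ := (hg ⟨z, hz⟩)
    have h5 : z ^ p ^ j = 1 := congrArg Subtype.val hj
    have h6 : orderOf z ∣ p ^ j := orderOf_dvd_of_pow_eq_one h5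
    have h7 : orderOf z ∣ Nat.card R := Subgroup.orderOf_dvd_natCard R h2
    have h8 : Nat.Coprime (p ^ j) (Nat.card R) :=
      Nat.Coprime.pow_left j ((Nat.Prime.coprime_iff_not_dvd hp.out).2 hR)
    have h9 : orderOf z = 1 := Nat.eq_one_of_dvd_coprimes h8 h6 h7
    exact orderOf_eq_one_iff.1 h9
  rw [← hyz, h4, mul_one]
  exact hy

theorem step_l {p : ℕ} [hp : Fact p.Prime] {k : Type} [Field k] [IsAlgClosed k] [CharP k p]
    (CC : Cls) {P G : Type} [Group P] [Fintype P] [Group G] [Fintype G] (u₀ : P)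
    (hu : orderOf u₀ = p) (hgen₀ : ∀ u : P, ∃ n : ℕ, u = u₀ ^ n) (i : P →* G) (hG : CC.mem G)
    (hind : Ind p k CC (Nat.card G)) (hP : IsPGroup p P) (hi : Function.Injective i)
    (hgen : Subgroup.normalClosure (i.range : Set G) = ⊤) (H₀ : Subgroup G)
    (h0 : RE p k i H₀) (hmax : ∀ H, RE p k i H → H ≤ H₀) (hne : H₀ ≠ ⊤) (R : Subgroup G)
    (hRn : R.Normal) (hR : ¬ p ∣ Nat.card R) (hRI : R ⊔ Subgroup.zpowers (i u₀) = ⊤) :
    ∃ (l : ℕ) (r : G), l.Prime ∧ l ≠ p ∧ IsPGroup l R ∧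
      R = Subgroup.closure {x | ∃ j : ℕ, x = i u₀ ^ j * r * (i u₀ ^ j)⁻¹} := by
  have hrange : i.range = Subgroup.zpowers (i u₀) := by
    ext x
    rw [MonoidHom.mem_range, Subgroup.mem_zpowers_iff]
    constructor
    · rintro ⟨u, rfl⟩
      obtain ⟨n, rfl⟩ := hgen₀ u
      exact ⟨n, by rw [map_pow, zpow_natCast]⟩
    · rintro ⟨n, rfl⟩
      exact ⟨u₀ ^ n, by rw [map_zpow]⟩
  have hg : IsPGroup p (Subgroup.zpowers (i u₀)) := by
    rw [← hrange, MonoidHom.range_eq_map]
    exact (hP.to_subgroup ⊤).map i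
  have hI : Subgroup.zpowers (i u₀) ≤ H₀ := by
    rw [← hrange]
    exact hmax _ (re_range hP i hi)
  have key : ¬ R ≤ BT.S3_nz H₀ := by
    intro h
    have h1 : (⊤ : Subgroup G) ≤ BT.S3_nz H₀ := by
      rw [← hRI]
      exact sup_le h (fun x hx => BT.S3_mem_nz.2 (BT.cj_eq_self (hI hx)))
    have h2 : H₀.Normal := by
      refine ⟨fun x hx y => ?_⟩
      rw [← BT.S3_mem_nz.1 (h1 (Subgroup.mem_top y))]
      exact BT.conj_mem_cj.2 hx
    apply hne
    rw [eq_top_iff, ← hgen]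
    apply Subgroup.normalClosure_le_normal
    rw [hrange]
    exact hI
  have hcop : ∀ Q : Subgroup G, Q ≤ R → BT.cj (i u₀) Q = Q →
      Q ⊔ Subgroup.zpowers (i u₀) ≠ ⊤ → Q ≤ BT.S3_nz H₀ := by
    intro Q hQR hQg hQ q hq
    refine BT.S3_mem_nz.2 (coprime_H0 CC u₀ hu hgen₀ i hG hind hP hi H₀ h0 hmax Q ?_ ?_ hQ q hq)
    · exact fun h => hR (h.trans (Subgroup.card_dvd_of_le hQR))
    · intro x hx
      rw [← hQg]
      exact BT.conj_mem_cj.2 hx
  obtain ⟨l, hl, hlp, hlR⟩ : ∃ l : ℕ, l.Prime ∧ l ≠ p ∧ IsPGroup l R := by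
    by_contra hno
    apply key
    have h1 : R ⊓ BT.S3_nz H₀ = R := by
      apply G6_gen R _ inf_le_left
      intro l hl hlR
      have hlF : Fact l.Prime := ⟨hl⟩
      obtain ⟨T, hTR, hTl, hTg, hTc⟩ := G6_sylow (p := p) (l := l) R hRn hR (i u₀) hg
      refine ⟨T, le_inf hTR ?_, hTc⟩
      apply hcop T hTR hTg
      intro htop
      apply hno
      have hTR' : T = R := G6_eq (p := p) (i u₀) hg R T hR hTR hTg htop
      refine ⟨l, hl, ?_, hTR' ▸ hTl⟩
      rintro rfl
      exact hR hlR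
    rw [← h1]
    exact inf_le_right
  obtain ⟨r, hr⟩ : ∃ r : G, R = Subgroup.closure {x | ∃ j : ℕ, x = i u₀ ^ j * r * (i u₀ ^ j)⁻¹} := by
    by_contra hno
    apply key
    intro r hr
    have h1 : Subgroup.closure {x | ∃ j : ℕ, x = i u₀ ^ j * r * (i u₀ ^ j)⁻¹} ≤ R := by
      rw [Subgroup.closure_le]
      rintro x ⟨j, rfl⟩
      exact hRn.conj_mem r hr _
    have h2 : BT.cj (i u₀) (Subgroup.closure {x | ∃ j : ℕ, x = i u₀ ^ j * r * (i u₀ ^ j)⁻¹}) =
        Subgroup.closure {x | ∃ j : ℕ, x = i u₀ ^ j * r * (i u₀ ^ j)⁻¹} := by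
      apply BT.cj_eq_of_le
      rw [BT.cj_closure, Subgroup.closure_le]
      rintro _ ⟨y, ⟨j, rfl⟩, rfl⟩
      refine Subgroup.subset_closure ⟨j + 1, ?_⟩
      rw [pow_succ']
      group
    refine hcop _ h1 h2 ?_ (Subgroup.subset_closure ⟨0, ?_⟩)
    · intro htop
      exact hno ⟨r, (G6_eq (p := p) (i u₀) hg R _ hR h1 h2 htop).symm⟩
    · rw [pow_zero, one_mul, inv_one, mul_one]
  exact ⟨l, r, hl, hlp, hlR, hr⟩

end

end Pool.Agent.MP_1c8e06_ag.AK
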