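import Pool.Agent.Lib.MP_1c8e06_ag.AK.G5
import Pool.Agent.Lib.MP_1c8e06_ag.AK.G6
import Pool.Agent.Lib.MP_1c8e06_ag.AJ.Fin
import Pool.Agent.Lib.MP_1c8e06_ag.AM.R1

set_option autoImplicit false

open Polynomial
open scoped Classical

namespace Pool.Agent.MP_1c8e06_ag.AK

open Pool.Agent.MP_1c8e06_ag.AJ

noncomputable section

/-!
# Task AK G7: the reduction (assembly)

* `PS`: the class of finite `p`-solvable groups.  `Cls.lt CC n`: the groups of `CC` of order less than `n`.
* `base_PS`: strong induction on `n = Nat.card G`: for all `P, G, i` with `Nat.card G = n`.  Induction hypothesis: `Base p k ((PS p).lt n)`.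
  `main_RE` (`AJ/Ga.lean`) for this class: `Ind p k (PS p) n`.  `u₀` a generator of `P` (order `p`).
  If `G` has a normal `p`-subgroup `N ≠ ⊥`: `case_two` (`AJ/G9.lean`).  Otherwise `hOp`.  `exists_max` (`AM/R1.lean`): `H₀`.  If `H₀ = ⊤`
  done.  Let `R` be the largest normal subgroup of order prime to `p`: the join of all of them (the product of two normal
  subgroups of order prime to `p` has order prime to `p`; or take one of maximal order).  `step_R`, `step_l`, `BaseL`.
-/

/-- The class of finite `p`-solvable groups. -/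
def PS (p : ℕ) [hp : Fact p.Prime] : Cls where
  mem G _ := PSolvable p G
  sub _ _ _ H h := psol_sub H h
  quot _ _ _ N _ h := psol_quot N h

/-- The groups of a class of order less than `n`. -/
def Cls.lt (CC : Cls) (n : ℕ) : Cls where
  mem G _ := CC.mem G ∧ Finite G ∧ Nat.card G < n
  sub G _ _ H h := ⟨CC.sub G H h.1, inferInstance,
    lt_of_le_of_lt (Subgroup.card_le_card_group H) h.2.2⟩
  quot G _ _ N _ h := ⟨CC.quot G N h.1, inferInstance,
    lt_of_le_of_lt (Nat.card_le_card_of_surjective _ (QuotientGroup.mk'_surjective N)) h.2.2⟩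

/-- The largest normal subgroup of order prime to `p`. -/
private theorem G7_exists_R (p : ℕ) [hp : Fact p.Prime] (G : Type) [Group G] [Finite G] :
    ∃ R : Subgroup G, R.Normal ∧ ¬ p ∣ Nat.card R ∧
      ∀ N : Subgroup G, N.Normal → ¬ p ∣ Nat.card N → N ≤ R := by
  have hfin : {N : Subgroup G | N.Normal ∧ ¬ p ∣ Nat.card N}.Finite := Set.toFinite _
  have hne : {N : Subgroup G | N.Normal ∧ ¬ p ∣ Nat.card N}.Nonempty := by
    refine ⟨⊥, Subgroup.normal_bot, ?_⟩
    rw [Subgroup.card_bot]
    intro h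
    exact hp.out.one_lt.ne' (Nat.dvd_one.1 h)
  obtain ⟨R, hR, hRm⟩ := Set.exists_max_image _ (fun N : Subgroup G => Nat.card N) hfin hne
  refine ⟨R, hR.1, hR.2, fun N hN hNp => ?_⟩
  have := hR.1
  have h1 : Nat.card (N ⊔ R : Subgroup G) = R.relIndex N * Nat.card R := by
    rw [← Subgroup.relIndex_sup_right, mul_comm, ← Subgroup.relIndex_bot_left,
      ← Subgroup.relIndex_bot_left, Subgroup.relIndex_mul_relIndex _ _ _ bot_le le_sup_right]
  have h2 : ¬ p ∣ Nat.card (N ⊔ R : Subgroup G) := by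
    rw [h1]
    intro h
    rcases (Nat.Prime.dvd_mul hp.out).1 h with h | h
    · exact hNp (h.trans (Subgroup.relIndex_dvd_card R N))
    · exact hR.2 h
  have h3 := hRm (N ⊔ R) ⟨inferInstance, h2⟩
  have h4 : R = N ⊔ R := by
    apply Subgroup.eq_of_le_of_card_ge le_sup_right h3
  rw [h4]
  exact le_sup_left

theorem base_PS {p : ℕ} [hp : Fact p.Prime] {k : Type} [Field k] [IsAlgClosed k] [CharP k p]
    (hL : BaseL p k) : Base p k (PS p) := by
  suffices h : ∀ n : ℕ, Base p k (Cls.lt (PS p) n) by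
    intro P G _ _ _ _ i hG hcard hi hgen
    exact h (Nat.card G + 1) P G i ⟨hG, inferInstance, Nat.lt_succ_self _⟩ hcard hi hgen
  intro n
  induction n with
  | zero =>
    intro P G _ _ _ _ i hG
    exact absurd hG.2.2 (Nat.not_lt_zero _)
  | succ n ih =>
    intro P G _ _ _ _ i hG hcard hi hgen
    have hlt : Nat.card G < n + 1 := hG.2.2
    have hind : Ind p k (PS p) (Nat.card G) := by
      intro P' G' _ _ _ _ i' hG' hlt' hP' hi' hgen'
      exact main_RE (Cls.lt (PS p) n) ih i' ⟨hG', inferInstance, by omega⟩ hP' hi' hgen'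
    have hP : IsPGroup p P := IsPGroup.of_card (n := 1) (by rw [hcard, pow_one])
    obtain ⟨u₀, hu⟩ := exists_prime_orderOf_dvd_card' (G := P) p (by rw [hcard])
    have hu1 : u₀ ≠ 1 := by
      intro h
      rw [h, orderOf_one] at hu
      exact hp.out.one_lt.ne hu
    have hgen₀ : ∀ u : P, ∃ n : ℕ, u = u₀ ^ n := by
      intro u
      obtain ⟨m, hm⟩ := mem_powers_of_prime_card (p := p) hcard hu1 (g' := u)
      exact ⟨m, hm.symm⟩
    by_cases hOp : ∀ N : Subgroup G, N.Normal → IsPGroup p N → N = ⊥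
    · obtain ⟨H₀, h0, hmax⟩ := AM.exists_max (k := k) i hi hcard
      by_cases hne : H₀ = ⊤
      · rw [hne] at h0
        exact h0
      · obtain ⟨R, hRn, hR, hRmax⟩ := G7_exists_R p G
        have hRI := step_R (PS p) u₀ hu hgen₀ i hG.1 hG.1 hind hP hi hgen H₀ h0 hmax hne hOp R hRn
          hR hRmax
        obtain ⟨l, r, hl, hlp, hRl, hRcl⟩ := step_l (PS p) u₀ hu hgen₀ i hG.1 hind hP hi hgen H₀ h0
          hmax hne R hRn hR hRI
        exact hL P G u₀ i l R r hu hgen₀ hi hl hlp hRn hRl hRI hRcl hgen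
    · push Not at hOp
      obtain ⟨N, hNn, hNp, hNne⟩ := hOp
      exact case_two (PS p) i hG.1 hind hP hi hgen N hNn hNp hNne

theorem main_psolvable {p : ℕ} [hp : Fact p.Prime] (k : Type) [Field k] [IsAlgClosed k]
    [CharP k p] (hL : BaseL p k) {G : Type} [Group G] [Finite G] (hG : PSolvable p G)
    (P : Subgroup G) (hP : IsPGroup p P) (hgen : Subgroup.normalClosure (P : Set G) = ⊤) :
    AI.Realised k G P :=
  main_class k (PS p) (base_PS hL) hG P hP hgen

end

end Pool.Agent.MP_1c8e06_ag.AK
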